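import Mathlib
import Pool.Agent.MP_7f417e_an.Final

open scoped Manifold ContDiff ENNReal Topology
open Set

/-- There are a compact connected three-dimensional `C^∞` manifold `M` without boundary and a
`C^∞` diffeomorphism `f` of `M` such that for every metric `m` on `M` inducing the topology of
`M`, every point `x` has `η_x(M) < ∞`, and the topological entropy of `f` is positive. -/
theorem Pool.Agent.Results.MP_7f417e_an.FiniteMassPosEntropy.result :
    ∃ (E : Type) (_ : NormedAddCommGroup E) (_ : NormedSpace ℝ E)
      (H : Type) (_ : TopologicalSpace H) (I : ModelWithCorners ℝ E H)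
      (M : Type) (tM : TopologicalSpace M) (_ : ChartedSpace H M),
      Module.finrank ℝ E = 3 ∧ I.Boundaryless ∧ IsManifold I ∞ M ∧
      CompactSpace M ∧ ConnectedSpace M ∧ TopologicalSpace.MetrizableSpace M ∧
      ∃ f : M ≃ₘ⟮I, I⟯ M,
        ∀ m : MetricSpace M, m.toPseudoMetricSpace.toUniformSpace.toTopologicalSpace = tM →
          (∀ x : M, @DR.eta M m f x univ < ⊤) ∧
          0 < @Dynamics.coverEntropy M m.toPseudoMetricSpace.toUniformSpace f univ := by
  obtain ⟨f, h1, h2, _⟩ := DR.main
  have := DR.connected_circle
  refine ⟨DR.V3, inferInstance, inferInstance, _, inferInstance, DR.I3, DR.Torus3,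
    inferInstance, inferInstance, DR.finrank_V3, inferInstance, inferInstance, inferInstance,
    inferInstance, inferInstance, f, ?_⟩
  intro m hm
  exact ⟨h1 m hm, DR.entropy_metric f h2 m hm⟩
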